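import Mathlib
import Pool.Agent.N546.PN.Stm2

/-!
# Points near a given point with prescribed small values (part DEN of project PN)
-/

set_option autoImplicit false
set_option linter.all false

namespace Pool.Agent.N380.PN

open Pool.Agent.N546.PN Filter Topology

theorem val_cont {n D : ℕ} {K : Type} [NontriviallyNormedField K] (c : Mon n D → K) :
    Continuous (fun x => val c x) := by
  unfold val
  refine continuous_finset_sum _ fun m _ => continuous_const.mul ?_
  exact continuous_finset_prod _ fun i _ => (continuous_apply i).pow _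

theorem den_ (K : Type) [NontriviallyNormedField K] (h1 : S_SQO K) (h2 : S_OPN K) : S_DEN K := by
  classical
  intro n ι _ _ e T c x hx0 hs hw
  -- the moduli
  have hδ : ∀ k, ∃ δ : ℝ, 0 < δ ∧ (val (c k) x ≠ 0 → ∀ a' : K, ‖a' - val (c k) x‖ < δ →
      ∃ z : K, z ≠ 0 ∧ a' = val (c k) x * z ^ 2) := by
    intro k
    by_cases h : val (c k) x = 0
    · exact ⟨1, one_pos, fun h' => absurd h h'⟩
    · obtain ⟨δ, h0, h'⟩ := h1 _ h
      exact ⟨δ, h0, fun _ => h'⟩
  choose δ hδ0 hδ1 using hδ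
  have hV : {x' : Fin (n + 1) → K | ∀ k, ‖val (c k) x' - val (c k) x‖ < δ k} ∈ 𝓝 x := by
    have h : ∀ k, ∀ᶠ x' in 𝓝 x, ‖val (c k) x' - val (c k) x‖ < δ k := by
      intro k
      have h' : Tendsto (fun x' => ‖val (c k) x' - val (c k) x‖) (𝓝 x) (𝓝 0) := by
        have h'' := (((val_cont (c k)).tendsto x).sub_const (val (c k) x)).norm
        simpa using h''
      exact h'.eventually (gt_mem_nhds (hδ0 k))
    exact eventually_all.mpr h
  obtain ⟨η, hη0, hη⟩ := h2 n ι e c x (Finset.univ.filter (fun k => val (c k) x = 0))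
    (fun l hl h => hs x l hx0 hl (fun k hk => (Finset.mem_filter.mp (h k hk)).2)) _ hV
  obtain ⟨w, hw0, hw1, hw2, hwS⟩ := hw η hη0
  obtain ⟨x', hx'V, hx'⟩ := hη w (fun k hk => by
    have h0 : val (c k) x = 0 := (Finset.mem_filter.mp hk).2
    rw [h0, sub_zero]
    exact hw2 k h0)
  have hz : ∀ k, ∃ z : K, z ≠ 0 ∧ val (c k) x' = w k * z ^ 2 := by
    intro k
    by_cases h : val (c k) x = 0
    · refine ⟨1, one_ne_zero, ?_⟩
      rw [hx' k (Finset.mem_filter.mpr ⟨Finset.mem_univ k, h⟩), one_pow, mul_one]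
    · obtain ⟨z2, hz2, e2⟩ := hδ1 k h _ (hx'V k)
      exact ⟨z2, hz2, by rw [hw1 k h]; exact e2⟩
  choose z hz0 hz1 using hz
  refine ⟨x', fun k => ?_, ?_⟩
  · rw [hz1 k]
    exact mul_ne_zero (hw0 k) (pow_ne_zero _ (hz0 k))
  · have e' : (fun k => val (c k) x') = fun k => w k * z k ^ 2 := by
      funext k
      exact hz1 k
    rw [e']
    exact T.sq K _ z hz0 hwS

end Pool.Agent.N380.PN
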